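import Mathlib
import Pool.Agent.H83.Tower

set_option autoImplicit false

namespace Pool.Agent.Results.MP_4da108_an.LocallyFinite

open scoped ENNReal

/-- `A` with the unitaries `u g` is the full C*-algebra of the discrete group `G`: the unitaries
span a dense subspace and every unitary representation of `G` in a unital C*-algebra extends -/
def IsFull (G : Type) [Group G] (A : Type 1) [CStarAlgebra A] (u : G →* unitary A) : Prop :=
  Dense (Submodule.span ℂ (Set.range fun g => (u g : A)) : Set A) ∧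
    ∀ (B : Type) [CStarAlgebra B] [Nontrivial B] (π : G →* unitary B),
      ∃ φ : A →⋆ₐ[ℂ] B, ∀ g, φ (u g) = π g

/-- primitive ideal: annihilator of a simple left module `A / L` -/
def IsPrimitive {A : Type*} [Ring A] (P : TwoSidedIdeal A) : Prop :=
  ∃ L : Ideal A, L.IsMaximal ∧ ∀ a, a ∈ P ↔ ∀ b, a * b ∈ L

/-- central, for a unital algebra -/
def Central (A : Type*) [Ring A] : Prop :=
  ∀ P Q : TwoSidedIdeal A, IsPrimitive P → IsPrimitive Q →
    (∀ z ∈ Set.center A, z ∈ P ↔ z ∈ Q) → P = Q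

/-- weakly central, for a unital algebra -/
def WeaklyCentral (A : Type*) [Ring A] : Prop :=
  (∀ M N : TwoSidedIdeal A, IsCoatom M → IsCoatom N →
    (∀ z ∈ Set.center A, z ∈ M ↔ z ∈ N) → M = N) ∧
  ∀ M : TwoSidedIdeal A, IsCoatom M → ¬ Set.center A ⊆ M

theorem abstract {G : Type} [Group G] {A : Type 1} [CStarAlgebra A] (u : G →* A)
    (hd : Dense (Submodule.span ℂ (Set.range u) : Set A)) (hn : ∀ g, ‖u g‖ ≤ 1)
    (ε : A →ₐ[ℂ] ℂ) (hc : ∀ a, ‖ε a‖ ≤ ‖a‖) (hε : ∀ g, ε (u g) = 1) (s : G) (hs : u s ≠ 1)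
    (hs2 : s * s = 1)
    (good : ∀ F : Finset G, ∃ (H : Type) (_ : Group H) (_ : Fintype H) (j : H →* G),
      (∀ g ∈ F, ∃ h, j h = g) ∧ ∀ (B : Type 1) [Ring B] [Algebra ℂ B] (u : G →* B),
        ∑ h, u (j h) = 0 → (1 : B) = 0) : WeaklyCentral A ∧ ¬ Central A := by
  have main : ∀ I : TwoSidedIdeal A, 1 ∉ I → ∀ a ∈ I, ε a = 0 := by
    intro I hI a ha
    by_contra h0
    obtain ⟨a, ha, h1⟩ : ∃ a ∈ I, ε a = 1 := ⟨algebraMap ℂ A (ε a)⁻¹ * a, I.mul_mem_left _ _ ha,
      by simp [h0]⟩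
    obtain ⟨b, hb, hab⟩ := hd.exists_dist_lt a (by norm_num : (0 : ℝ) < 1 / 2)
    obtain ⟨c, rfl⟩ := Finsupp.mem_span_range_iff_exists_finsupp.1 hb
    obtain ⟨H, _, _, j, hj, hB⟩ := good c.support
    set b := c.sum fun i a => a • u i with hbdef
    have hH : (Fintype.card H : ℂ) ≠ 0 := Nat.cast_ne_zero.2 Fintype.card_ne_zero
    let p : A := (Fintype.card H : ℂ)⁻¹ • ∑ h, u (j h)
    have p1 : ∀ k, p * u (j k) = p := fun k => by
      simp only [p, smul_mul_assoc, Finset.sum_mul, ← map_mul]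
      congr 1
      exact Fintype.sum_equiv (Equiv.mulRight k) _ _ fun _ => rfl
    have p2 : p * p = p := by
      nth_rw 2 [show p = (Fintype.card H : ℂ)⁻¹ • ∑ h, u (j h) from rfl]
      simp only [mul_smul_comm, Finset.mul_sum, p1, Finset.sum_const, Finset.card_univ,
        ← Nat.cast_smul_eq_nsmul ℂ, smul_smul, inv_mul_cancel₀ hH, one_smul]
    have p3 : ‖p‖ ≤ 1 := by
      rw [norm_smul, norm_inv, Complex.norm_natCast, inv_mul_le_iff₀ (by
        exact_mod_cast Fintype.card_pos)]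
      refine (norm_sum_le _ _).trans ((Finset.sum_le_sum fun h _ => hn (j h)).trans ?_)
      simp
    have p4 : p * b = ε b • p := by
      simp only [hbdef, Finsupp.sum, Finset.mul_sum, map_sum, Finset.sum_smul, mul_smul_comm,
        map_smul, hε, smul_eq_mul, mul_one]
      refine Finset.sum_congr rfl fun g hg => ?_
      obtain ⟨k, rfl⟩ := hj g hg
      rw [p1]
    rw [dist_eq_norm] at hab
    have p5 : ‖p - p * a‖ < 1 := by
      have e : p - p * a = ε (a - b) • p - p * (a - b) := by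
        rw [map_sub, h1, sub_smul, one_smul, mul_sub, p4]; abel
      rw [e]
      refine (norm_sub_le _ _).trans_lt ?_
      have := norm_mul_le p (a - b)
      have := hc (a - b)
      rw [norm_smul]
      nlinarith [norm_nonneg p, norm_nonneg (a - b), norm_nonneg (ε (a - b))]
    have p6 : p ∈ I := by
      have e : p * (Units.oneSub _ p5 : Aˣ) = p * a := by
        rw [Units.val_oneSub, mul_sub, mul_sub, ← mul_assoc, p2]; simp
      rw [← Units.mul_inv_cancel_right p (Units.oneSub _ p5), e]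
      exact I.mul_mem_right _ _ (I.mul_mem_left _ _ ha)
    have p7 : ∑ h, u (j h) ∈ I := by
      have := I.mul_mem_left (algebraMap ℂ A (Fintype.card H)) _ p6
      rwa [← Algebra.smul_def, smul_smul, mul_inv_cancel₀ hH, one_smul] at this
    have := hB (A ⧸ I.asIdeal) ((Ideal.Quotient.mk I.asIdeal).toMonoidHom.comp u) (by
      change ∑ h, Ideal.Quotient.mk I.asIdeal (u (j h)) = 0
      rw [← map_sum, Ideal.Quotient.eq_zero_iff_mem]
      exact p7)
    exact hI ((Ideal.Quotient.eq_zero_iff_mem (I := I.asIdeal)).1 this)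
  let K : TwoSidedIdeal A := TwoSidedIdeal.ker ε
  have hK : ∀ a, a ∈ K ↔ ε a = 0 := fun a => TwoSidedIdeal.mem_ker _
  have co : ∀ M : TwoSidedIdeal A, IsCoatom M → 1 ∉ M ∧ M = K := fun M hM => by
    have h1 : 1 ∉ M := fun h => hM.1 (TwoSidedIdeal.one_mem_iff M |>.1 h)
    refine ⟨h1, by_contra fun h => ?_⟩
    have := hM.2 K (lt_of_le_of_ne (fun a ha => (hK a).2 (main M h1 a ha)) h)
    have h2 : (1 : A) ∈ K := this ▸ trivial
    simp [hK] at h2
  refine ⟨⟨fun M N hM hN _ => (co M hM).2.trans (co N hN).2.symm,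
    fun M hM h => (co M hM).1 (h Set.one_mem_center)⟩, fun hC => ?_⟩
  haveI : Nontrivial A := ⟨_, _, hs⟩
  have cz : ∀ z ∈ Set.center A, ε z = 0 → z = 0 := fun z hz h0 => by
    have hz' := Semigroup.mem_center_iff.1 hz
    haveI : IsStarNormal z := ⟨hz' _⟩
    have h1 : ∀ k ∈ spectrum ℂ z, k = 0 := fun k hk => by
      have hw : ∀ a, a * (algebraMap ℂ A k - z) = (algebraMap ℂ A k - z) * a := fun a => by
        rw [mul_sub, sub_mul, hz', Algebra.commutes]
      have := main (TwoSidedIdeal.mk' {x | ∃ a, x = a * (algebraMap ℂ A k - z)} ⟨0, by simp⟩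
        (by rintro _ _ ⟨a, rfl⟩ ⟨b, rfl⟩; exact ⟨a + b, (add_mul _ _ _).symm⟩)
        (by rintro _ ⟨a, rfl⟩; exact ⟨-a, (neg_mul _ _).symm⟩)
        (by rintro x _ ⟨a, rfl⟩; exact ⟨x * a, (mul_assoc _ _ _).symm⟩)
        (by rintro _ x ⟨a, rfl⟩; exact ⟨a * x, by rw [mul_assoc, ← hw x, mul_assoc]⟩))
        (by
          rw [TwoSidedIdeal.mem_mk']
          rintro ⟨a, ha⟩
          exact hk ⟨⟨_, a, (hw a).symm.trans ha.symm, ha.symm⟩, rfl⟩)
        (algebraMap ℂ A k - z) (by rw [TwoSidedIdeal.mem_mk']; exact ⟨1, (one_mul _).symm⟩)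
      simpa [h0] using this
    have h2 := IsStarNormal.spectralRadius_eq_nnnorm z
    have h3 : spectralRadius ℂ z = 0 := by
      simp only [spectralRadius, ENNReal.iSup_eq_zero]
      intro k hk
      simp [h1 k hk]
    simpa [h3, eq_comm] using h2
  obtain ⟨L, hL, hle⟩ := Ideal.exists_le_maximal (Ideal.span {1 + u s}) (by
    rw [Ne, Ideal.eq_top_iff_one, Ideal.mem_span_singleton']
    rintro ⟨a, ha⟩
    apply hs
    have e : (1 + u s) * (1 - u s) = 0 := by
      rw [mul_sub, add_mul, add_mul, ← map_mul, hs2]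
      simp [add_comm]
    have e2 := congrArg (· * (1 - u s)) ha
    simp only [mul_assoc, e, mul_zero, one_mul] at e2
    exact (sub_eq_zero.1 e2.symm).symm)
  let P : TwoSidedIdeal A := TwoSidedIdeal.mk' {a | ∀ b, a * b ∈ L} (by simp)
    (fun {x y} hx hy b => by rw [add_mul]; exact L.add_mem (hx b) (hy b))
    (fun {x} hx b => by rw [neg_mul]; exact L.neg_mem (hx b))
    (fun {x y} hy b => by rw [mul_assoc]; exact L.mul_mem_left _ (hy b))
    (fun {x y} hx b => by rw [mul_assoc]; exact hx _)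
  have hP : ∀ a, a ∈ P ↔ ∀ b, a * b ∈ L := fun a => TwoSidedIdeal.mem_mk' _ _ _ _ _ _ _
  have hP1 : 1 ∉ P := fun h => hL.ne_top ((Ideal.eq_top_iff_one L).2 (by
    simpa using (hP 1).1 h 1))
  have := hC P K ⟨L, hL, hP⟩ ⟨RingHom.ker ε, RingHom.ker_isMaximal_of_surjective _
      (fun c => ⟨algebraMap ℂ A c, by simp⟩), fun a => by
      simp only [hK, RingHom.mem_ker, map_mul]
      exact ⟨fun h b => by simp [h], fun h => by simpa using h 1⟩⟩
    fun z hz => ⟨fun h => (hK z).2 (main P hP1 z h), fun h => by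
      rw [cz z hz ((hK z).1 h)]; exact P.zero_mem⟩
  have h1 : 1 - u s ∈ L := by
    simpa using (hP _).1 (this ▸ (hK (1 - u s)).2 (by simp [hε])) 1
  have h2 := L.mul_mem_left (algebraMap ℂ A 2⁻¹) (L.add_mem h1 (hle (Ideal.subset_span rfl)))
  rw [show 1 - u s + (1 + u s) = algebraMap ℂ A 2 by rw [map_ofNat, ← one_add_one_eq_two]; abel, ← map_mul] at h2
  exact hL.ne_top ((Ideal.eq_top_iff_one L).2 (by simpa using h2))

noncomputable def regMap {G : Type} [Group G] (g : G) (f : lp (fun _ : G => ℂ) 2) :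
    lp (fun _ : G => ℂ) 2 :=
  ⟨fun x => f (x * g), memℓp_gen ((Equiv.mulRight g).summable_iff.2
    ((memℓp_gen_iff (by norm_num)).1 f.2))⟩

noncomputable def regIso (G : Type) [Group G] :
    G →* (lp (fun _ : G => ℂ) 2 ≃ₗᵢ[ℂ] lp (fun _ : G => ℂ) 2) where
  toFun g :=
    { toFun := regMap g
      invFun := regMap g⁻¹
      map_add' := fun _ _ => rfl
      map_smul' := fun _ _ => rfl
      left_inv := fun f => by ext x; simp [regMap]
      right_inv := fun f => by ext x; simp [regMap]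
      norm_map' := fun f => by
        rw [lp.norm_eq_tsum_rpow (by norm_num), lp.norm_eq_tsum_rpow (by norm_num) f,
          ← (Equiv.mulRight g).tsum_eq fun x => ‖f x‖ ^ ENNReal.toReal 2]
        rfl }
  map_one' := by ext f x; exact congrArg f (mul_one x)
  map_mul' g h := by ext f x; exact congrArg f (mul_assoc x g h).symm

structure URep (G : Type) [Group G] where
  B : Type
  [cs : CStarAlgebra B]
  [nt : Nontrivial B]
  π : G →* unitary B

attribute [instance] URep.cs URep.nt

abbrev Big (G : Type) [Group G] : Type 1 := lp (fun ρ : URep G => ρ.B) ∞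

noncomputable instance bigCStar (G : Type) [Group G] : CStarAlgebra (Big G) where

noncomputable def univ {G : Type} [Group G] (g : G) : Big G :=
  ⟨fun ρ => ρ.π g, memℓp_infty ⟨1, by
    rintro _ ⟨ρ, rfl⟩
    exact (CStarRing.norm_coe_unitary (ρ.π g)).le⟩⟩

theorem exists_full (G : Type) [Group G] :
    ∃ (A : Type 1) (_ : CStarAlgebra A) (u : G →* unitary A), IsFull G A u := by
  let F := (StarAlgebra.adjoin ℂ (Set.range (univ (G := G)))).topologicalClosure
  haveI : IsClosed (F : Set (Big G)) := StarSubalgebra.isClosed_topologicalClosure _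
  let U : G →* Big G := ⟨⟨univ, by ext ρ : 2; simp [univ]⟩, fun g h => by
    ext ρ : 2; simp [univ]⟩
  have hst : ∀ g, U g⁻¹ = star (U g) := fun g => by
    ext ρ : 2
    change ((ρ.π g⁻¹ : unitary _) : ρ.B) = star (ρ.π g : ρ.B)
    rw [map_inv]; rfl
  have hm : ∀ g, U g ∈ F := fun g =>
    StarSubalgebra.le_topologicalClosure _ (StarAlgebra.subset_adjoin ℂ _ ⟨g, rfl⟩)
  let u : G →* F := U.codRestrict F hm
  refine ⟨F, inferInstance, u.codRestrict (unitary F) fun g => ⟨Subtype.ext ?_, Subtype.ext ?_⟩,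
    ?_, fun B _ _ π => ⟨⟨⟨⟨⟨⟨fun a => a.1 ⟨B, π⟩, rfl⟩, fun _ _ => rfl⟩, rfl, fun _ _ => rfl⟩,
      fun c => ?_⟩, fun _ => rfl⟩, fun _ => rfl⟩⟩
  · change star (U g) * U g = 1
    rw [← hst, ← map_mul, inv_mul_cancel, map_one]
  · change U g * star (U g) = 1
    rw [← hst, ← map_mul, mul_inv_cancel, map_one]
  · rw [Topology.IsInducing.subtypeVal.dense_iff]
    intro a
    refine closure_mono (fun b hb => ?_) a.2
    have : b ∈ (Submodule.span ℂ (Set.range u)).map F.subtype.toLinearMap := by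
      rw [Submodule.map_span, ← Set.range_comp]
      change b ∈ Submodule.span ℂ (Set.range U)
      induction hb using StarAlgebra.adjoin_induction with
      | mem x hx => exact Submodule.subset_span hx
      | algebraMap r =>
        rw [Algebra.algebraMap_eq_smul_one]
        exact Submodule.smul_mem _ _ (Submodule.subset_span ⟨1, map_one U⟩)
      | add x y _ _ hx hy => exact Submodule.add_mem _ hx hy
      | mul x y _ _ hx hy =>
        have := Submodule.mul_mem_mul hx hy
        rw [Submodule.span_mul_span] at this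
        refine Submodule.span_mono ?_ this
        rintro _ ⟨_, ⟨g, rfl⟩, _, ⟨h, rfl⟩, rfl⟩
        exact ⟨g * h, map_mul U g h⟩
      | star x hx' hx =>
        clear hx'
        induction hx using Submodule.span_induction with
        | mem x hx =>
          obtain ⟨g, rfl⟩ := hx
          exact Submodule.subset_span ⟨g⁻¹, hst g⟩
        | zero => simp
        | add x y _ _ hx hy => rw [star_add]; exact Submodule.add_mem _ hx hy
        | smul c x _ hx => rw [star_smul]; exact Submodule.smul_mem _ _ hx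
    exact this
  · rw [Algebra.algebraMap_eq_smul_one, Algebra.algebraMap_eq_smul_one]; rfl

theorem result : ∃ (G : Type) (_ : Group G) (A : Type 1) (_ : CStarAlgebra A)
    (u : G →* unitary A), IsFull G A u ∧ WeaklyCentral A ∧ ¬ Central A := by
  classical
  let G := Pool.Agent.H83.Tower.GG
  obtain ⟨s, hs, hs2⟩ := Pool.Agent.H83.Tower.exists_inv
  obtain ⟨A, _, u, hu⟩ := exists_full G
  obtain ⟨ε, hε⟩ := hu.2 ℂ 1
  haveI : Nontrivial (lp (fun _ : G => ℂ) 2) := ⟨lp.single 2 1 1, 0, fun h => by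
    simpa using congrArg (fun f : lp (fun _ : G => ℂ) 2 => f 1) h⟩
  obtain ⟨φ, hφ⟩ := hu.2 (lp (fun _ : G => ℂ) 2 →L[ℂ] lp (fun _ : G => ℂ) 2)
    (Unitary.linearIsometryEquiv.symm.toMonoidHom.comp (regIso G))
  haveI : Nontrivial A := ε.toRingHom.domain_nontrivial
  refine ⟨G, inferInstance, A, inferInstance, u, hu, abstract ((unitary A).subtype.comp u) hu.1
    (fun g => (CStarRing.norm_coe_unitary (u g)).le) ε
    (fun a => NonUnitalStarAlgHom.norm_apply_le ε a) hε s
    (fun h => ?_) hs2 Pool.Agent.H83.Tower.good⟩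
  have h1 := hφ s
  rw [show (u s : A) = 1 from h, map_one] at h1
  have := congrArg (fun T : lp (fun _ : G => ℂ) 2 →L[ℂ] lp (fun _ : G => ℂ) 2 =>
    T (lp.single 2 1 1) 1) h1
  change (lp.single 2 (1 : G) (1 : ℂ) : lp (fun _ : G => ℂ) 2) 1 =
    (lp.single 2 (1 : G) (1 : ℂ) : lp (fun _ : G => ℂ) 2) (1 * s) at this
  simp [hs] at this

end Pool.Agent.Results.MP_4da108_an.LocallyFinite
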